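import Mathlib

set_option autoImplicit false

namespace Pool.Agent.Results.MP_7b3100_nt.Rational

theorem period (b : ℕ) (hb : 0 < b) : ∃ i T : ℕ, 0 < T ∧ ∀ n k : ℕ, i ≤ n →
    (10 : ZMod b) ^ (n + T * k) = 10 ^ n := by
  haveI : NeZero b := ⟨hb.ne'⟩
  obtain ⟨i, j, hij, h⟩ : ∃ i j : ℕ, i < j ∧ (10 : ZMod b) ^ i = 10 ^ j := by
    obtain ⟨i, j, hne, h⟩ := Finite.exists_ne_map_eq_of_infinite (fun n : ℕ => (10 : ZMod b) ^ n)
    rcases lt_or_gt_of_ne hne with h1 | h1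
    · exact ⟨i, j, h1, h⟩
    · exact ⟨j, i, h1, h.symm⟩
  obtain ⟨T, rfl⟩ : ∃ T, j = i + T := ⟨j - i, by omega⟩
  refine ⟨i, T, by omega, fun n k hn => ?_⟩
  obtain ⟨s, rfl⟩ : ∃ s, n = i + s := ⟨n - i, by omega⟩
  induction k with
  | zero => simp
  | succ k ih =>
    have e : i + s + T * (k + 1) = (i + T) + (s + T * k) := by ring
    rw [e, pow_add, ← h, ← pow_add, ← add_assoc, ih]

theorem main (a : ℤ) (ha : a ≠ 0) (b : ℕ) (hb : 0 < b) : ∃ n : ℕ, 1 ≤ n ∧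
    2 ≤ (10 ^ n * a / (b : ℤ)).natAbs ∧ ¬ (10 ^ n * a / (b : ℤ)).natAbs.Prime := by
  obtain ⟨i, T, hT, hper⟩ := period b hb
  obtain ⟨n, hn⟩ : ∃ n : ℕ, n = i + b * (b + 12) + 1 := ⟨_, rfl⟩
  have hbz : (0 : ℤ) < b := by exact_mod_cast hb
  have hbig : (b : ℤ) * (b + 12) < 10 ^ n := by
    have h1 : n < 10 ^ n := Nat.lt_pow_self (by norm_num)
    have h2 : b * (b + 12) < 10 ^ n := by omega
    exact_mod_cast h2
  obtain ⟨x, hx⟩ : ∃ x : ℤ, x = 10 ^ n * a := ⟨_, rfl⟩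
  obtain ⟨M, hM⟩ : ∃ M : ℤ, M = x / b := ⟨_, rfl⟩
  have hdec : (b : ℤ) * M + x % b = x := by rw [hM]; exact Int.mul_ediv_add_emod x b
  have hr0 : 0 ≤ x % b := Int.emod_nonneg _ hbz.ne'
  have hr1 : x % b < b := Int.emod_lt_of_pos _ hbz
  have hpos : (0 : ℤ) < 10 ^ n := by positivity
  have hcase : (0 < x ∧ (b : ℤ) + 11 ≤ M) ∨ (x < 0 ∧ M ≤ -((b : ℤ) + 11)) := by
    rcases lt_or_gt_of_ne ha with h | h
    · right
      have h1 : x ≤ -10 ^ n := by rw [hx]; nlinarith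
      refine ⟨by omega, ?_⟩
      by_contra hc
      have : -((b : ℤ) + 11) ≤ M := by omega
      nlinarith
    · left
      have h1 : 10 ^ n ≤ x := by rw [hx]; nlinarith
      refine ⟨by omega, ?_⟩
      by_contra hc
      have : M ≤ (b : ℤ) + 10 := by omega
      nlinarith
  have hMabs : b + 11 ≤ M.natAbs := by omega
  by_cases hp : M.natAbs.Prime
  swap
  · refine ⟨n, by omega, ?_, ?_⟩ <;> rw [← hx, ← hM]
    · omega
    · exact hp
  obtain ⟨p, hpM⟩ : ∃ p, p = M.natAbs := ⟨_, rfl⟩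
  rw [← hpM] at hp hMabs
  obtain ⟨W, hW⟩ : ∃ W : ℤ, W = 10 ^ (T * (p - 1)) := ⟨_, rfl⟩
  have hW1 : 1 < W := by
    rw [hW]; exact one_lt_pow₀ (by norm_num) (Nat.mul_pos hT (by omega)).ne'
  have hy : (10 : ℤ) ^ (n + T * (p - 1)) * a = W * x := by rw [hW, hx, pow_add]; ring
  have hmod : (W * x) % b = x % b := by
    rw [← hy, hx, ← ZMod.intCast_eq_intCast_iff']
    push_cast
    rw [hper n (p - 1) (by omega)]
  obtain ⟨M', hM'⟩ : ∃ M' : ℤ, M' = W * x / b := ⟨_, rfl⟩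
  have hdec' : (b : ℤ) * M' + x % b = W * x := by
    rw [hM', ← hmod]; exact Int.mul_ediv_add_emod _ b
  have hcop : IsCoprime (10 : ℤ) p := by
    have : Nat.Coprime 10 p := ((Nat.Prime.coprime_iff_not_dvd hp).2 fun h => by
      have := Nat.le_of_dvd (by norm_num) h; omega).symm
    exact_mod_cast Nat.isCoprime_iff_coprime.2 this
  have hW2 : (p : ℤ) ∣ W - 1 := by
    have h1 := (Int.ModEq.pow_card_sub_one_eq_one hp hcop).pow T
    rw [one_pow, ← pow_mul, mul_comm, ← hW] at h1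
    exact h1.symm.dvd
  have hpM2 : (p : ℤ) ∣ M := by rw [hpM]; exact Int.natAbs_dvd.2 dvd_rfl
  have hd : (p : ℤ) ∣ b * M' := by
    have : (b : ℤ) * M' = (W - 1) * x + b * M := by linear_combination hdec' - hdec
    rw [this]; exact dvd_add (hW2.mul_right _) (hpM2.mul_left _)
  have hd2 : p ∣ M'.natAbs := by
    rcases Int.Prime.dvd_mul' hp hd with h | h
    · have := Int.le_of_dvd hbz h; omega
    · exact Int.natCast_dvd.1 h
  have hgt : p < M'.natAbs := by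
    rcases hcase with ⟨h1, h2⟩ | ⟨h1, h2⟩
    · have : M < M' := by
        by_contra hc
        have : M' ≤ M := by omega
        nlinarith
      omega
    · have : M' < M := by
        by_contra hc
        have : M ≤ M' := by omega
        nlinarith
      omega
  refine ⟨n + T * (p - 1), by omega, ?_, ?_⟩ <;> rw [hy, ← hM']
  · omega
  · intro h
    have := (Nat.prime_dvd_prime_iff_eq hp h).1 hd2
    omega

/-- For every nonzero rational `α` some `⌊10^n α⌋` with `n ≥ 1` is composite. -/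
theorem result : ∀ α : ℝ, α ≠ 0 → (∃ q : ℚ, α = q) → ∃ n : ℕ, 1 ≤ n ∧
    2 ≤ ⌊(10 : ℝ) ^ n * α⌋.natAbs ∧ ¬ ⌊(10 : ℝ) ^ n * α⌋.natAbs.Prime := by
  rintro α h0 ⟨q, rfl⟩
  have hq : q.num ≠ 0 := by
    intro h; apply h0; rw [Rat.num_eq_zero.1 h]; simp
  obtain ⟨n, hn, h⟩ := main q.num hq q.den q.den_pos
  refine ⟨n, hn, ?_⟩
  have e : ⌊(10 : ℝ) ^ n * (q : ℝ)⌋ = 10 ^ n * q.num / (q.den : ℤ) := by
    have h1 : (10 : ℝ) ^ n * (q : ℝ) = (((10 ^ n * q.num : ℤ) : ℚ) / (q.den : ℕ) : ℚ) := by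
      push_cast; rw [mul_div_assoc, Rat.cast_def]
    rw [h1, Rat.floor_cast, Rat.floor_intCast_div_natCast]
  rw [e]; exact h

end Pool.Agent.Results.MP_7b3100_nt.Rational
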